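import Mathlib
import Pool.Agent.Lib.MP_32dfd1_ag.Cyc.Corr
import Pool.Agent.Lib.MP_32dfd1_ag.Cyc.One
import Pool.Agent.Lib.MP_32dfd1_ag.Par.Main

set_option autoImplicit false
set_option linter.unusedSectionVars false

/-!
# Correspondences given by spans, external products of correspondences
-/

namespace Pool.Agent.Lib.MP_32dfd1_ag.Sur

open CategoryTheory MonoidalCategory CartesianMonoidalCategory Pool.Agent.Lib.MP_32dfd1_ag.Cyc
  Pool.Agent.Lib.MP_32dfd1_ag.Par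

universe u v w

variable {V : Type u} [Category.{v} V] [CartesianMonoidalCategory V]

section

variable (R : RingData.{u, v, w} V) [R.Functorial] [R.Direct] [R.Formulas]

/-- composition with a correspondence given by a span -/
theorem span_comp {W X Y Z : V} (f : W ⟶ X) (g : W ⟶ Y) (w : R.R W) (d : R.R (Y ⊗ Z)) :
    R.comp (R.push (lift f g) w) d =
      R.push (f ▷ Z) (R.pull (fst W Z) w * R.pull (g ▷ Z) d) := by
  unfold RingData.comp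
  rw [R.base_change, ← R.proj_right, ← R.push_comp, ← R.pull_comp, ← comp_whiskerRight,
    ← comp_whiskerRight, lift_fst, lift_snd]

/-- exchange of the factors -/
def sw (X Y : V) : X ⊗ Y ≅ Y ⊗ X where
  hom := lift (snd X Y) (fst X Y)
  inv := lift (snd Y X) (fst Y X)
  hom_inv_id := by ext <;> simp
  inv_hom_id := by ext <;> simp

theorem base_change_right {X Y : V} (f : X ⟶ Y) (Z : V) (x : R.R X) :
    R.pull (snd Z Y) (R.push f x) = R.push (Z ◁ f) (R.pull (snd Z X) x) := by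
  have h1 : snd Z Y = (sw Z Y).hom ≫ fst Y Z := by simp [sw]
  have h2 : R.pull (sw Z Y).hom (R.push (f ▷ Z) (R.pull (fst X Z) x)) =
      R.push (Z ◁ f) (R.pull (sw Z X).hom (R.pull (fst X Z) x)) := by
    refine RingData.pull_push_iso R (sw Z X) (sw Z Y) (Z ◁ f) (f ▷ Z) ?_ _
    ext <;> simp [sw]
  rw [h1, R.pull_comp, R.base_change, h2, ← R.pull_comp]
  congr 2
  simp [sw]

theorem push_product {X X' Y Y' : V} (f : X ⟶ Y) (g : X' ⟶ Y') (x : R.R X) (y : R.R X') :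
    R.push (f ⊗ₘ g) (R.pull (fst X X') x * R.pull (snd X X') y) =
      R.pull (fst Y Y') (R.push f x) * R.pull (snd Y Y') (R.push g y) := by
  have h1 : f ⊗ₘ g = f ▷ X' ≫ Y ◁ g := by rw [MonoidalCategory.tensorHom_def]
  have h2 : R.pull (snd X X') y = R.pull (f ▷ X') (R.pull (snd Y X') y) := by
    rw [← R.pull_comp, whiskerRight_snd]
  have h3 : R.pull (fst Y X') (R.push f x) = R.pull (Y ◁ g) (R.pull (fst Y Y') (R.push f x)) := by
    rw [← R.pull_comp, whiskerLeft_fst]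
  rw [h1, R.push_comp, h2, R.proj_right, ← R.base_change, h3, R.proj_left, base_change_right]

/-- the rearrangement of four factors -/
def four (A B C D : V) : (A ⊗ B) ⊗ (C ⊗ D) ≅ (A ⊗ C) ⊗ (B ⊗ D) where
  hom := lift (fst A B ⊗ₘ fst C D) (snd A B ⊗ₘ snd C D)
  inv := lift (fst A C ⊗ₘ fst B D) (snd A C ⊗ₘ snd B D)
  hom_inv_id := by ext <;> simp
  inv_hom_id := by ext <;> simp

/-- external product of correspondences -/
def ep {X X' P P' : V} (a : R.R (X ⊗ P)) (a' : R.R (X' ⊗ P')) :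
    R.R ((X ⊗ X') ⊗ (P ⊗ P')) :=
  R.pull (fst X X' ⊗ₘ fst P P') a * R.pull (snd X X' ⊗ₘ snd P P') a'

theorem ep_eq {X X' P P' : V} (a : R.R (X ⊗ P)) (a' : R.R (X' ⊗ P')) :
    ep R a a' = R.pull (four X X' P P').hom
      (R.pull (fst (X ⊗ P) (X' ⊗ P')) a * R.pull (snd (X ⊗ P) (X' ⊗ P')) a') := by
  unfold ep
  rw [map_mul, ← R.pull_comp, ← R.pull_comp]
  simp [four]

theorem ep_mem {X X' P P' : V} {k k' : ℤ} {a : R.R (X ⊗ P)} {a' : R.R (X' ⊗ P')}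
    (h : a ∈ R.gr (X ⊗ P) k) (h' : a' ∈ R.gr (X' ⊗ P') k') :
    ep R a a' ∈ R.gr ((X ⊗ X') ⊗ (P ⊗ P')) (k + k') :=
  R.mul_mem (R.pull_mem _ h) (R.pull_mem _ h')

theorem ep_sum {X X' P P' : V} {I J : Type*} (s : Finset I) (t : Finset J)
    (a : I → R.R (X ⊗ P)) (a' : J → R.R (X' ⊗ P')) :
    ep R (∑ i ∈ s, a i) (∑ j ∈ t, a' j) = ∑ i ∈ s, ∑ j ∈ t, ep R (a i) (a' j) := by
  unfold ep
  rw [map_sum, map_sum, Finset.sum_mul_sum]

theorem diag_ep (X X' : V) : ep R (R.diag X) (R.diag X') = R.diag (X ⊗ X') := by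
  rw [ep_eq]
  unfold RingData.diag
  rw [← push_product]
  have h := RingData.pull_push_iso R (Iso.refl (X ⊗ X')) (four X X' X X')
    (lift (𝟙 (X ⊗ X')) (𝟙 (X ⊗ X'))) (lift (𝟙 X) (𝟙 X) ⊗ₘ lift (𝟙 X') (𝟙 X'))
    (by ext <;> simp [four]) (1 : R.R (X ⊗ X'))
  rw [map_one, map_one, one_mul, h, Iso.refl_hom, R.pull_id]

/-- the rearrangement of six factors -/
def six (A A' B B' C C' : V) :
    ((A ⊗ A') ⊗ (B ⊗ B')) ⊗ (C ⊗ C') ≅ ((A ⊗ B) ⊗ C) ⊗ ((A' ⊗ B') ⊗ C') where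
  hom := lift ((fst A A' ⊗ₘ fst B B') ⊗ₘ fst C C') ((snd A A' ⊗ₘ snd B B') ⊗ₘ snd C C')
  inv := lift (lift (fst _ _ ≫ fst _ _ ≫ fst _ _) (snd _ _ ≫ fst _ _ ≫ fst _ _) |> fun s => lift s (lift (fst _ _ ≫ fst _ _ ≫ snd _ _) (snd _ _ ≫ fst _ _ ≫ snd _ _))) (lift (fst _ _ ≫ snd _ _) (snd _ _ ≫ snd _ _))
  hom_inv_id := by ext <;> simp
  inv_hom_id := by ext <;> simp

theorem comp_ep (hC : ∀ (X : V) (x y : R.R X), x * y = y * x) {X X' P P' Z Z' : V}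
    (a : R.R (X ⊗ P)) (a' : R.R (X' ⊗ P')) (b : R.R (P ⊗ Z)) (b' : R.R (P' ⊗ Z')) :
    R.comp (ep R a a') (ep R b b') = ep R (R.comp a b) (R.comp a' b') := by
  rw [ep_eq R (R.comp a b)]
  unfold RingData.comp
  rw [← push_product, RingData.pull_push_iso R (six X X' P P' Z Z') (four X X' Z Z')
    (fst (X ⊗ X') (P ⊗ P') ▷ (Z ⊗ Z')) (fst X P ▷ Z ⊗ₘ fst X' P' ▷ Z')
    (by ext <;> simp [four, six])]
  congr 1
  unfold ep
  simp only [map_mul, ← R.pull_comp]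
  have e1 : fst ((X ⊗ X') ⊗ (P ⊗ P')) (Z ⊗ Z') ≫ (fst X X' ⊗ₘ fst P P') =
      (six X X' P P' Z Z').hom ≫ fst ((X ⊗ P) ⊗ Z) ((X' ⊗ P') ⊗ Z') ≫ fst (X ⊗ P) Z := by
    ext <;> simp [six]
  have e2 : fst ((X ⊗ X') ⊗ (P ⊗ P')) (Z ⊗ Z') ≫ (snd X X' ⊗ₘ snd P P') =
      (six X X' P P' Z Z').hom ≫ snd ((X ⊗ P) ⊗ Z) ((X' ⊗ P') ⊗ Z') ≫ fst (X' ⊗ P') Z' := by
    ext <;> simp [six]
  have e3 : snd (X ⊗ X') (P ⊗ P') ▷ (Z ⊗ Z') ≫ (fst P P' ⊗ₘ fst Z Z') =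
      (six X X' P P' Z Z').hom ≫ fst ((X ⊗ P) ⊗ Z) ((X' ⊗ P') ⊗ Z') ≫ snd X P ▷ Z := by
    ext <;> simp [six]
  have e4 : snd (X ⊗ X') (P ⊗ P') ▷ (Z ⊗ Z') ≫ (snd P P' ⊗ₘ snd Z Z') =
      (six X X' P P' Z Z').hom ≫ snd ((X ⊗ P) ⊗ Z) ((X' ⊗ P') ⊗ Z') ≫ snd X' P' ▷ Z' := by
    ext <;> simp [six]
  rw [e1, e2, e3, e4]
  generalize R.pull _ a = A
  generalize R.pull _ a' = A'
  generalize R.pull _ b = B
  generalize R.pull _ b' = B'
  rw [mul_assoc, ← mul_assoc A' B B', hC _ A' B, mul_assoc B A' B', ← mul_assoc]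

end

/-- products of varieties of parity type are of parity type -/
theorem parityType_tensor {T : CycleData.{u, v, w} V} [T.Textbook]
    (hC : ∀ (X : V) (x y : T.CH.R X), x * y = y * x) {X Y : V} (hX : ParityType T X)
    (hY : ParityType T Y) : ParityType T (X ⊗ Y) := by
  obtain ⟨I, _, P, ι, n, a, b, hP, ha, hb, hab⟩ := hX
  obtain ⟨J, _, P', ι', n', a', b', hP', ha', hb', hab'⟩ := hY
  refine ⟨I × J, inferInstance, fun k => P k.1 ⊗ P' k.2, fun k => ι k.1 ⊗ₘ ι' k.2,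
    fun k => n k.1 + n' k.2, fun k => ep T.CH (a k.1) (a' k.2), fun k => ep T.CH (b k.1) (b' k.2),
    fun k => parity_tensor (hP k.1) (hP' k.2), fun k => ?_, fun k => ?_, ?_⟩
  · refine T.gr_congr (ep_mem T.CH (ha k.1) (ha' k.2)) ?_
    rw [T.dim_tensor]; ring
  · refine T.gr_congr (ep_mem T.CH (hb k.1) (hb' k.2)) ?_
    rw [T.dim_tensor]; ring
  · rw [← diag_ep, ← hab, ← hab', ep_sum, Fintype.sum_prod_type]
    refine Finset.sum_congr rfl fun i _ => Finset.sum_congr rfl fun j _ => ?_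
    exact comp_ep T.CH hC _ _ _ _

end Pool.Agent.Lib.MP_32dfd1_ag.Sur
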