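import Mathlib
import Pool.Agent.Lib.MP_32dfd1_ag.Par.Defs

set_option autoImplicit false

/-!
# Surfaces and the tensor category which they generate (definitions)

Let `S` be a smooth projective surface, `α : S ⟶ A` its Albanese map, `q = dim A`, `n = k + 2` an
integer `≥ 2q + 2`, `c` a general point of `A` and
`W = {(s_1, ..., s_n) ∈ S^n | α(s_1) + ... + α(s_n) = c}`.
This is a smooth projective variety with an action of the symmetric group `S_n`.  By the construction
of Godeaux and Serre there is a smooth complete intersection `B` with a free action of `S_n`, and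
`Y = (W × B) / S_n` is smooth.  Its first Betti number is zero (see `SumFibre.noOdd`), so a
smooth complete intersection surface `S' ⊆ Y` has no odd cohomology.
-/

namespace Pool.Agent.Lib.MP_32dfd1_ag.Sur

open CategoryTheory MonoidalCategory CartesianMonoidalCategory Pool.Agent.Lib.MP_32dfd1_ag.Cyc
  Pool.Agent.Lib.MP_32dfd1_ag.Par

universe u v w

variable {V : Type u} [Category.{v} V] [CartesianMonoidalCategory V]

/-- An action of the symmetric group on `k + 2` letters on a variety. -/
structure SymAction (k : ℕ) (X : V) where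
  b : Equiv.Perm (Fin (k + 2)) → (X ⟶ X)
  one : b 1 = 𝟙 X
  mul : ∀ g h, b (g * h) = b g ≫ b h

/-- `f` is equivariant. -/
def Equivariant {k : ℕ} {X Y : V} (f : X ⟶ Y) (a : SymAction k X) (a' : SymAction k Y) : Prop :=
  ∀ g, a.b g ≫ f = f ≫ a'.b g

/-- `q` is an etale Galois cover with group `S_n`: the pull-back of the direct image is the sum
over the group, also for all products with a variety `Z`. -/
def Galois (R : RingData.{u, v, w} V) {k : ℕ} {X Y : V} (q : X ⟶ Y) (a : SymAction k X) : Prop :=
  ∀ (Z : V) (z : R.R (X ⊗ Z)), R.pull (q ▷ Z) (R.push (q ▷ Z) z) = ∑ g, R.pull (a.b g ▷ Z) z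

/-- Base change for a cartesian square of smooth varieties of the expected dimension. -/
def BaseChange (R : RingData.{u, v, w} V) {W X Y Z : V} (p : W ⟶ X) (ρ : W ⟶ Y) (a : X ⟶ Z)
    (γ : Y ⟶ Z) : Prop :=
  ∀ x : R.R Y, R.push p (R.pull ρ x) = R.pull a (R.push γ x)

/-- The data of the fibre `W` of the sum map `S^n ⟶ A`,
`(s_1, ..., s_n) ↦ α(s_1) + ... + α(s_n)`, over a general point `c`, `n = k + 2`. -/
structure SumData (T : CycleData.{u, v, w} V) (S : V) where
  /-- the Albanese variety of `S` -/
  A : V
  /-- the Albanese map -/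
  α : S ⟶ A
  /-- `(x, y) ↦ c - x - y` -/
  β : A ⊗ A ⟶ A
  k : ℕ
  /-- `S^k`, the last `k` of the `k + 2` factors -/
  R : V
  r : Fin k → (R ⟶ S)
  /-- the sum of the Albanese images of the `k` points -/
  γ : R ⟶ A
  /-- the fibre -/
  W : V
  p₁ : W ⟶ S
  p₂ : W ⟶ S
  ρ : W ⟶ R
  /-- the class of an ample divisor on `S` -/
  l : T.CH.R S
  /-- the relative dimension of `p₁ : W ⟶ S` -/
  e : ℕ
  /-- the degree of the fibres of `p₁` with respect to the ample class `∑ p_i^* l` -/
  N : ℚ

/-- The coordinates `W ⟶ S`. -/
def SumData.pr {T : CycleData.{u, v, w} V} {S : V} (D : SumData T S) :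
    Fin (D.k + 2) → (D.W ⟶ S) :=
  Fin.cons D.p₁ (Fin.cons D.p₂ fun j => D.ρ ≫ D.r j : Fin (D.k + 1) → (D.W ⟶ S))

/-- The ample class `∑ p_i^* l`. -/
def SumData.L {T : CycleData.{u, v, w} V} {S : V} (D : SumData T S) : T.CH.R D.W :=
  ∑ i, T.CH.pull (D.pr i) D.l

/-- `W` is the fibre product of `(s, t) ↦ c - α(s) - α(t)` and `γ`, smooth of the expected
dimension, and the fibres of `p₁` have degree `N ≠ 0`. -/
structure SumData.IsFibre {T : CycleData.{u, v, w} V} {S : V} (D : SumData T S) : Prop where
  dim_W : T.dim D.W = T.dim S + T.dim S + T.dim D.R - T.dim D.A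
  base_change : BaseChange T.CH (lift D.p₁ D.p₂) D.ρ ((D.α ⊗ₘ D.α) ≫ D.β) D.γ
  l_mem : D.l ∈ T.CH.gr S 1
  dim_e : (D.e : ℤ) = T.dim D.W - T.dim S
  N_ne : D.N ≠ 0
  degree : T.CH.push D.p₁ (D.L ^ D.e) = D.N • 1

/-- The data of a smooth complete intersection surface `S'` in `Y = (W × B) / S_n`. -/
structure Slice {T : CycleData.{u, v, w} V} {S : V} (D : SumData T S) where
  S' : V
  /-- the inverse image of `S'` in `W × B` -/
  W' : V
  q : W' ⟶ S'
  f : W' ⟶ D.W
  /-- the action of the symmetric group on `W` -/
  act : SymAction D.k D.W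
  /-- the action of the symmetric group on `W'` -/
  act' : SymAction D.k W'
  N' : ℚ

/-- `q : W' ⟶ S'` is an etale Galois cover with group `S_n`, `f : W' ⟶ W` is equivariant,
the class of the image of `W'` is `N' L^e`, `N' ≠ 0`, and `S'` has no odd cohomology. -/
structure Slice.IsGood {T : CycleData.{u, v, w} V} {S : V} {D : SumData T S} (E : Slice D) :
    Prop where
  proj : ∀ g i, E.act.b g ≫ D.pr i = D.pr (g i)
  equivariant : Equivariant E.f E.act' E.act
  dim_S' : T.dim E.S' = T.dim S
  dim_W' : T.dim E.W' = T.dim S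
  galois : Galois T.CH E.q E.act'
  N'_ne : E.N' ≠ 0
  image : T.CH.push E.f 1 = E.N' • D.L ^ D.e
  /-- `H^1(S') = H^1(Y) = H^1(W)^(S_n)` and `H^3(S')` are zero.  Indeed the points of `S^n` where the
  sum map to `A` is not smooth are those with all `s_i` on the zeros of one 1-form, so the
  singularities of the fibres have codimension `≥ n - 2q + 1 ≥ 3`, and `H^1` of the fibres is a
  variation of Hodge structure on `A` (restrict to general complete intersection surfaces in the
  fibres).  By Deligne's semisimplicity theorem it has finite monodromy, so by the theorem of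
  global invariant cycles `H^1(W)` comes from `H^1(S^n ×_A A')` for an isogeny `A' ⟶ A`.  This is the
  sum of the groups `H^1(S^n, χ ⊠ ... ⊠ χ)` over the characters `χ` of the kernel of the isogeny,
  and they are zero for `χ ≠ 1`.  So `H^1(W)^(S_n)` comes from `H^1(S^n)^(S_n) = H^1(A)`, which
  restricts to zero on the fibres. -/
  noOdd : NoOdd T E.S'

/-- The fibre `W` of the sum map of `S`, and a surface `S'` in `(W × B) / S_n`. -/
structure SumFibre (T : CycleData.{u, v, w} V) (S : V) where
  D : SumData T S
  isFibre : D.IsFibre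
  /-- the involution `-1` of `A` -/
  neg : D.A ⟶ D.A
  parity : Parity T D.A neg
  E : Slice D
  good : E.IsGood

/-- The construction exists for every surface. -/
def SumFibres (T : CycleData.{u, v, w} V) : Prop :=
  ∀ S : V, T.dim S = 2 → Nonempty (SumFibre T S)

/-- Surfaces, varieties with a parity involution (for instance abelian varieties and varieties
without odd cohomology), and their products. -/
inductive Generator (T : CycleData.{u, v, w} V) : V → Prop
  | surface (S : V) : T.dim S = 2 → Generator T S
  | parity (X : V) (i : X ⟶ X) : Parity T X i → Generator T X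
  | tensor (X Y : V) : Generator T X → Generator T Y → Generator T (X ⊗ Y)

/-- The diagonal of `X` is a sum of compositions `b i ∘ a i` of correspondences `a i` from `X`
to generators `P i`, of degree `n i`, and `b i` from `P i` to `X`, of degree `- n i`.  In other
words the Chow motive of `X` is a direct summand of a sum of Tate twists of motives of products
of surfaces and varieties with parity involutions. -/
def Generated (T : CycleData.{u, v, w} V) (X : V) : Prop :=
  ∃ (I : Type) (_ : Fintype I) (P : I → V) (n : I → ℤ)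
    (a : ∀ i, T.CH.R (X ⊗ P i)) (b : ∀ i, T.CH.R (P i ⊗ X)),
    (∀ i, Generator T (P i)) ∧
    (∀ i, a i ∈ T.CH.gr (X ⊗ P i) (T.dim X + n i)) ∧
    (∀ i, b i ∈ T.CH.gr (P i ⊗ X) (T.dim (P i) - n i)) ∧
    ∑ i, T.CH.comp (a i) (b i) = T.CH.diag X

/-- The one-step form of the conjectures of Bloch and Beilinson (with respect to parity): if
`X`, `Y` are generated by surfaces and varieties with parity involutions, then a correspondence
from `X` to `Y` which acts as zero on the odd cohomology of `X` acts as zero on the
homologically trivial cycle classes on `X`. -/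
def OneStep (T : CycleData.{u, v, w} V) : Prop :=
  ∀ X Y : V, Generated T X → Generated T Y → ∀ (r m : ℤ) (c : T.CH.R (X ⊗ Y)),
    c ∈ T.CH.gr (X ⊗ Y) r →
    (∀ j : ℤ, Odd j → ∀ x ∈ T.H.gr X j, T.H.act (T.cl _ c) x = 0) →
    ∀ z, T.HomTrivial X m z → T.CH.act c z = 0

end Pool.Agent.Lib.MP_32dfd1_ag.Sur
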