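import Mathlib
import Pool.Agent.Lib.MP_32dfd1_ag.Sur.Ext
import Pool.Agent.Lib.MP_32dfd1_ag.Sur.Defs

set_option autoImplicit false
set_option linter.unusedSectionVars false

/-!
# The decomposition of the diagonal of a surface
-/

namespace Pool.Agent.Lib.MP_32dfd1_ag.Sur

open CategoryTheory MonoidalCategory CartesianMonoidalCategory Pool.Agent.Lib.MP_32dfd1_ag.Cyc
  Pool.Agent.Lib.MP_32dfd1_ag.Par

universe u v w

variable {V : Type u} [Category.{v} V] [CartesianMonoidalCategory V]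

namespace SumFibre

variable {T : CycleData.{u, v, w} V} [T.Textbook] {S : V} (D : SumFibre T S)

theorem L_eq : D.D.L = T.CH.pull D.D.p₁ D.D.l + T.CH.pull D.D.p₂ D.D.l +
    ∑ j, T.CH.pull (D.D.ρ ≫ D.D.r j) D.D.l := by
  unfold SumData.L SumData.pr
  rw [Fin.sum_univ_succ, Fin.sum_univ_succ]
  simp [add_assoc]

theorem pr_zero : D.D.pr 0 = D.D.p₁ := rfl

theorem pr_one : D.D.pr 1 = D.D.p₂ := rfl

theorem b_pr (g : Equiv.Perm (Fin (D.D.k + 2))) (i : Fin (D.D.k + 2)) :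
    D.E.act.b g ≫ D.D.pr i = D.D.pr (g i) := D.good.proj g i

theorem pull_L (g : Equiv.Perm (Fin (D.D.k + 2))) : T.CH.pull (D.E.act.b g) D.D.L = D.D.L := by
  unfold SumData.L
  rw [map_sum]
  refine Fintype.sum_equiv g _ _ fun i => ?_
  rw [← T.CH.pull_comp, D.b_pr]

/-- the automorphisms of `W` -/
def iso (g : Equiv.Perm (Fin (D.D.k + 2))) : D.D.W ≅ D.D.W where
  hom := D.E.act.b g
  inv := D.E.act.b g⁻¹
  hom_inv_id := by rw [← D.E.act.mul, mul_inv_cancel, D.E.act.one]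
  inv_hom_id := by rw [← D.E.act.mul, inv_mul_cancel, D.E.act.one]

theorem push_L (g : Equiv.Perm (Fin (D.D.k + 2))) (n : ℕ) :
    T.CH.push (D.E.act.b g) (D.D.L ^ n) = D.D.L ^ n := by
  have h := T.CH.push_iso (D.iso g) (D.D.L ^ n)
  change T.CH.push (D.E.act.b g) (D.D.L ^ n) = T.CH.pull (D.E.act.b g⁻¹) (D.D.L ^ n) at h
  rw [h, map_pow, D.pull_L]

/-- the automorphisms of `W' × Z` -/
def iso' (g : Equiv.Perm (Fin (D.D.k + 2))) (Z : V) : D.E.W' ⊗ Z ≅ D.E.W' ⊗ Z where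
  hom := D.E.act'.b g ▷ Z
  inv := D.E.act'.b g⁻¹ ▷ Z
  hom_inv_id := by
    rw [← comp_whiskerRight, ← D.E.act'.mul, mul_inv_cancel, D.E.act'.one, id_whiskerRight]
  inv_hom_id := by
    rw [← comp_whiskerRight, ← D.E.act'.mul, inv_mul_cancel, D.E.act'.one, id_whiskerRight]

theorem pull_b' (g : Equiv.Perm (Fin (D.D.k + 2))) (Z : V) (z : T.CH.R (D.E.W' ⊗ Z)) :
    T.CH.pull (D.E.act'.b g ▷ Z) z = T.CH.push (D.E.act'.b g⁻¹ ▷ Z) z := by
  have h := T.CH.push_iso (D.iso' g⁻¹ Z) z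
  change T.CH.push (D.E.act'.b g⁻¹ ▷ Z) z = T.CH.pull (D.E.act'.b (g⁻¹)⁻¹ ▷ Z) z at h
  rw [h, inv_inv]

/-- the correspondences `(p_i, p_0)_* L^e` -/
def Γ (i : Fin (D.D.k + 2)) : T.CH.R (S ⊗ S) :=
  T.CH.push (lift (D.D.pr i) (D.D.pr 0)) (D.D.L ^ D.D.e)

theorem Γ_zero : D.Γ 0 = D.D.N • T.CH.diag S := by
  unfold Γ RingData.diag
  have h : lift (D.D.pr 0) (D.D.pr 0) = D.D.pr 0 ≫ lift (𝟙 S) (𝟙 S) := by ext <;> simp
  have h2 := D.isFibre.degree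
  rw [h, T.CH.push_comp, D.pr_zero, h2, map_smul]

theorem Γ_ne {i : Fin (D.D.k + 2)} (hi : i ≠ 0) :
    D.Γ i = T.CH.push (lift D.D.p₁ D.D.p₂) (D.D.L ^ D.D.e) := by
  have h10 : (1 : Fin (D.D.k + 2)) ≠ 0 := by simp
  have h1 : D.Γ i = D.Γ 1 := by
    unfold Γ
    have h : lift (D.D.pr i) (D.D.pr 0) = D.E.act.b (Equiv.swap 1 i) ≫ lift (D.D.pr 1) (D.D.pr 0) := by
      ext
      · rw [lift_fst, Category.assoc, lift_fst, D.b_pr, Equiv.swap_apply_left]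
      · rw [lift_snd, Category.assoc, lift_snd, D.b_pr,
          Equiv.swap_apply_of_ne_of_ne (Ne.symm h10) (Ne.symm hi)]
    rw [h, T.CH.push_comp, D.push_L]
  rw [h1]
  unfold Γ
  have h : lift (D.D.pr 1) (D.D.pr 0) = D.E.act.b (Equiv.swap 0 1) ≫ lift D.D.p₁ D.D.p₂ := by
    ext
    · rw [lift_fst, Category.assoc, lift_fst, ← D.pr_zero, D.b_pr, Equiv.swap_apply_left]
    · rw [lift_snd, Category.assoc, lift_snd, ← D.pr_one, D.b_pr, Equiv.swap_apply_right]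
  rw [h, T.CH.push_comp, D.push_L]

/-- the correspondence from `S` to `S'` -/
def cv : T.CH.R (S ⊗ D.E.S') := T.CH.push (lift (D.E.f ≫ D.D.pr 0) D.E.q) 1

/-- the correspondence from `S'` to `S` -/
def cu : T.CH.R (D.E.S' ⊗ S) := T.CH.push (lift D.E.q (D.E.f ≫ D.D.pr 0)) 1

theorem comp_cv_cu : T.CH.comp D.cv D.cu = ∑ g : Equiv.Perm (Fin (D.D.k + 2)),
    D.E.N' • D.Γ (g⁻¹ 0) := by
  unfold cv cu
  rw [span_comp, map_one, one_mul]
  have h1 : lift D.E.q (D.E.f ≫ D.D.pr 0) = lift (𝟙 D.E.W') (D.E.f ≫ D.D.pr 0) ≫ D.E.q ▷ S := by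
    ext <;> simp
  rw [h1, T.CH.push_comp, D.good.galois, map_sum]
  refine Finset.sum_congr rfl fun g _ => ?_
  rw [D.pull_b', ← T.CH.push_comp, ← T.CH.push_comp]
  have h2 : lift (𝟙 D.E.W') (D.E.f ≫ D.D.pr 0) ≫ D.E.act'.b g⁻¹ ▷ S ≫ (D.E.f ≫ D.D.pr 0) ▷ S =
      D.E.f ≫ lift (D.D.pr (g⁻¹ 0)) (D.D.pr 0) := by
    ext
    · simp only [Category.assoc, whiskerRight_fst, lift_fst, whiskerRight_fst_assoc,
        lift_fst_assoc, Category.id_comp]
      rw [← Category.assoc, D.good.equivariant, Category.assoc, D.b_pr]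
    · simp
  have h3 := D.good.image
  rw [h2, T.CH.push_comp, h3, map_smul]
  rfl

/-- the correspondence `(p₁, p₂)_* L^e` factors through `A` -/
theorem Γ_expand (hC : ∀ (X : V) (x y : T.CH.R X), x * y = y * x) :
    T.CH.push (lift D.D.p₁ D.D.p₂) (D.D.L ^ D.D.e) =
      ∑ m ∈ Finset.range (D.D.e + 1), (D.D.e.choose m : ℚ) •
        ((T.CH.pull (fst S S) D.D.l + T.CH.pull (snd S S) D.D.l) ^ m *
          T.CH.pull ((D.D.α ⊗ₘ D.D.α) ≫ D.D.β)
            (T.CH.push D.D.γ ((∑ j, T.CH.pull (D.D.r j) D.D.l) ^ (D.D.e - m)))) := by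
  have h1 : D.D.L = T.CH.pull (lift D.D.p₁ D.D.p₂)
      (T.CH.pull (fst S S) D.D.l + T.CH.pull (snd S S) D.D.l) +
      T.CH.pull D.D.ρ (∑ j, T.CH.pull (D.D.r j) D.D.l) := by
    rw [D.L_eq, map_add, ← T.CH.pull_comp, ← T.CH.pull_comp, lift_fst, lift_snd, map_sum]
    congr 1
    exact Finset.sum_congr rfl fun j _ => T.CH.pull_comp _ _ _
  have h2 : ∀ (X : V) (x y : T.CH.R X), Commute x y := hC
  rw [h1, (h2 _ _ _).add_pow, map_sum]
  refine Finset.sum_congr rfl fun m _ => ?_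
  rw [← D.isFibre.base_change, ← T.CH.proj_left, ← map_smul, ← map_pow, ← map_pow,
    Nat.cast_smul_eq_nsmul ℚ, nsmul_eq_mul, (Nat.cast_commute _ _).eq]

theorem pow_mem {X : V} {x : T.CH.R X} (hx : x ∈ T.CH.gr X 1) (n : ℕ) :
    x ^ n ∈ T.CH.gr X n := by
  induction n with
  | zero => simpa using T.CH.one_mem X
  | succ n ih =>
    rw [pow_succ]
    refine T.gr_congr (T.CH.mul_mem ih hx) ?_
    push_cast; ring

/-- the coefficients on `A × A` -/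
def M (m : ℕ) : T.CH.R (D.D.A ⊗ D.D.A) :=
  T.CH.pull D.D.β (T.CH.push D.D.γ ((∑ j, T.CH.pull (D.D.r j) D.D.l) ^ (D.D.e - m)))

/-- the correspondences from `S` to `A` -/
def ca (j : ℕ) : T.CH.R (S ⊗ D.D.A) := T.CH.push (lift (𝟙 S) D.D.α) (D.D.l ^ j)

/-- the correspondences from `A` to `S` -/
def cb (m j : ℕ) : T.CH.R (D.D.A ⊗ S) :=
  ((D.D.e.choose m : ℚ) * (m.choose j : ℚ)) •
    (T.CH.pull (snd D.D.A S) (D.D.l ^ (m - j)) * T.CH.pull (D.D.A ◁ D.D.α) (D.M m))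

theorem ca_mem (j : ℕ) : D.ca j ∈ T.CH.gr (S ⊗ D.D.A) (T.dim S + (j + T.dim D.D.A - T.dim S)) := by
  refine T.gr_congr (T.CH_push_mem _ (pow_mem D.isFibre.l_mem j)) ?_
  rw [T.dim_tensor]; ring

theorem cb_mem {m : ℕ} (hm : m ≤ D.D.e) (j : ℕ) :
    D.cb m j ∈ T.CH.gr (D.D.A ⊗ S) (T.dim D.D.A - (j + T.dim D.D.A - T.dim S)) := by
  unfold cb
  by_cases hj : j ≤ m
  · refine Submodule.smul_mem _ _ ?_
    have h1 : (∑ j, T.CH.pull (D.D.r j) D.D.l) ∈ T.CH.gr D.D.R 1 :=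
      Submodule.sum_mem _ fun j _ => T.CH.pull_mem _ D.isFibre.l_mem
    refine T.gr_congr (T.CH.mul_mem (T.CH.pull_mem _ (pow_mem D.isFibre.l_mem (m - j)))
      (T.CH.pull_mem _ (T.CH.pull_mem _ (T.CH_push_mem _ (pow_mem h1 (D.D.e - m)))))) ?_
    have h2 := D.isFibre.dim_W
    have h3 := D.isFibre.dim_e
    push_cast [Nat.cast_sub hj, Nat.cast_sub hm]
    linarith
  · rw [show m.choose j = 0 from Nat.choose_eq_zero_of_lt (by omega)]
    simp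

theorem comp_ca_cb (m j : ℕ) :
    T.CH.comp (D.ca j) (D.cb m j) = ((D.D.e.choose m : ℚ) * (m.choose j : ℚ)) •
      (T.CH.pull (fst S S) D.D.l ^ j * T.CH.pull (snd S S) D.D.l ^ (m - j) *
        T.CH.pull ((D.D.α ⊗ₘ D.D.α) ≫ D.D.β)
            (T.CH.push D.D.γ ((∑ j, T.CH.pull (D.D.r j) D.D.l) ^ (D.D.e - m)))) := by
  unfold ca cb
  rw [span_comp, id_whiskerRight, T.CH.push_id, map_smul, mul_smul_comm, map_mul,
    ← T.CH.pull_comp, ← T.CH.pull_comp, whiskerRight_snd, ← MonoidalCategory.tensorHom_def,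
    map_pow, map_pow, mul_assoc]
  unfold M
  rw [← T.CH.pull_comp]

theorem Γ_eq (hC : ∀ (X : V) (x y : T.CH.R X), x * y = y * x) :
    T.CH.push (lift D.D.p₁ D.D.p₂) (D.D.L ^ D.D.e) =
      ∑ x : Fin (D.D.e + 1) × Fin (D.D.e + 1), T.CH.comp (D.ca x.2) (D.cb x.1 x.2) := by
  rw [D.Γ_expand hC, Fintype.sum_prod_type, ← Fin.sum_univ_eq_sum_range (fun m =>
    (D.D.e.choose m : ℚ) • ((T.CH.pull (fst S S) D.D.l + T.CH.pull (snd S S) D.D.l) ^ m *
          T.CH.pull ((D.D.α ⊗ₘ D.D.α) ≫ D.D.β)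
            (T.CH.push D.D.γ ((∑ j, T.CH.pull (D.D.r j) D.D.l) ^ (D.D.e - m)))))]
  refine Finset.sum_congr rfl fun m _ => ?_
  have h2 : ∀ (X : V) (x y : T.CH.R X), Commute x y := hC
  have hm : (m : ℕ) + 1 ≤ D.D.e + 1 := m.2
  rw [(h2 _ _ _).add_pow, Finset.sum_subset (Finset.range_subset_range.2 hm),
    ← Fin.sum_univ_eq_sum_range (fun j => T.CH.pull (fst S S) D.D.l ^ j *
      T.CH.pull (snd S S) D.D.l ^ ((m : ℕ) - j) * ((m : ℕ).choose j : T.CH.R (S ⊗ S))),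
    Finset.sum_mul, Finset.smul_sum]
  · refine Finset.sum_congr rfl fun j _ => ?_
    rw [D.comp_ca_cb, mul_smul]
    congr 1
    rw [Nat.cast_smul_eq_nsmul ℚ, nsmul_eq_mul, ← (Nat.cast_commute _ _).eq, mul_assoc]
  · intro j _ hj
    rw [Finset.mem_range, not_lt] at hj
    rw [Nat.choose_eq_zero_of_lt (by omega), Nat.cast_zero, mul_zero]

/-- number of permutations with a given property -/
theorem comp_cv_cu' : ∃ c₀ c₁ : ℚ, c₀ ≠ 0 ∧ T.CH.comp D.cv D.cu =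
    c₀ • T.CH.diag S + c₁ • T.CH.push (lift D.D.p₁ D.D.p₂) (D.D.L ^ D.D.e) := by
  classical
  rw [D.comp_cv_cu, ← Finset.sum_filter_add_sum_filter_not Finset.univ
    (fun g : Equiv.Perm (Fin (D.D.k + 2)) => g⁻¹ 0 = 0)]
  refine ⟨((Finset.univ.filter fun g : Equiv.Perm (Fin (D.D.k + 2)) => g⁻¹ 0 = 0).card : ℚ) *
    (D.E.N' * D.D.N), ((Finset.univ.filter fun g : Equiv.Perm (Fin (D.D.k + 2)) =>
      ¬ g⁻¹ 0 = 0).card : ℚ) * D.E.N', ?_, ?_⟩
  · refine mul_ne_zero ?_ (mul_ne_zero D.good.N'_ne D.isFibre.N_ne)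
    rw [Nat.cast_ne_zero, Finset.card_ne_zero]
    exact ⟨1, Finset.mem_filter.2 ⟨Finset.mem_univ _, by rw [inv_one]; rfl⟩⟩
  · congr 1
    · rw [Finset.sum_congr rfl fun g hg => by rw [(Finset.mem_filter.1 hg).2, D.Γ_zero],
        Finset.sum_const, ← Nat.cast_smul_eq_nsmul ℚ, smul_smul, smul_smul, mul_assoc]
    · rw [Finset.sum_congr rfl fun g hg => by rw [D.Γ_ne (Finset.mem_filter.1 hg).2],
        Finset.sum_const, ← Nat.cast_smul_eq_nsmul ℚ, smul_smul]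

theorem smul_comp (R : RingData.{u, v, w} V) {X Y Z : V} (q : ℚ) (c : R.R (X ⊗ Y))
    (d : R.R (Y ⊗ Z)) : R.comp (q • c) d = q • R.comp c d := by
  unfold RingData.comp
  rw [map_smul, smul_mul_assoc, map_smul]

theorem parity_id {X : V} (h : NoOdd T X) : Parity T X (𝟙 X) := by
  refine ⟨by simp, fun j _ x _ => T.H.pull_id x, fun j hj x hx => ?_⟩
  rw [h j hj, Submodule.mem_bot] at hx
  rw [hx]
  simp

theorem cv_mem : D.cv ∈ T.CH.gr (S ⊗ D.E.S') (T.dim S + 0) := by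
  refine T.gr_congr (T.CH_push_mem _ (T.CH.one_mem _)) ?_
  rw [T.dim_tensor, D.good.dim_S', D.good.dim_W']; ring

theorem cu_mem : D.cu ∈ T.CH.gr (D.E.S' ⊗ S) (T.dim D.E.S' - 0) := by
  refine T.gr_congr (T.CH_push_mem _ (T.CH.one_mem _)) ?_
  rw [T.dim_tensor, D.good.dim_S', D.good.dim_W']; ring

include D in
/-- A variety with a construction as above is of parity type. -/
theorem parityType (hC : ∀ (X : V) (x y : T.CH.R X), x * y = y * x) : ParityType T S := by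
  obtain ⟨c₀, c₁, hc₀, h⟩ := D.comp_cv_cu'
  have hdiag : T.CH.comp (c₀⁻¹ • D.cv) D.cu + ∑ x : Fin (D.D.e + 1) × Fin (D.D.e + 1),
      T.CH.comp ((-(c₀⁻¹ * c₁)) • D.ca x.2) (D.cb x.1 x.2) = T.CH.diag S := by
    rw [Finset.sum_congr rfl fun x _ => smul_comp T.CH _ _ _, ← Finset.smul_sum, ← D.Γ_eq hC,
      smul_comp, h, smul_add, smul_smul, smul_smul, inv_mul_cancel₀ hc₀, one_smul, neg_smul]
    abel
  refine ⟨Option (Fin (D.D.e + 1) × Fin (D.D.e + 1)), inferInstance,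
    fun o => o.elim D.E.S' fun _ => D.D.A,
    fun o => match o with
      | none => 𝟙 D.E.S'
      | some _ => D.neg,
    fun o => o.elim 0 fun x => (x.2 : ℤ) + T.dim D.D.A - T.dim S,
    fun o => match o with
      | none => c₀⁻¹ • D.cv
      | some x => (-(c₀⁻¹ * c₁)) • D.ca x.2,
    fun o => match o with
      | none => D.cu
      | some x => D.cb x.1 x.2, ?_, ?_, ?_, ?_⟩
  · rintro (_ | x)
    · exact parity_id D.good.noOdd
    · exact D.parity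
  · rintro (_ | x)
    · exact Submodule.smul_mem _ _ D.cv_mem
    · exact Submodule.smul_mem _ _ (D.ca_mem x.2)
  · rintro (_ | x)
    · exact D.cu_mem
    · exact D.cb_mem (by have := x.1.2; omega) x.2
  · rw [Fintype.sum_option]
    exact hdiag

end SumFibre

end Pool.Agent.Lib.MP_32dfd1_ag.Sur
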