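import Mathlib
import Pool.Agent.Lib.MP_32dfd1_ag.Sur.Fibre

set_option autoImplicit false
set_option linter.unusedSectionVars false

/-!
# The one-step conjecture for motives generated by surfaces
-/

namespace Pool.Agent.Lib.MP_32dfd1_ag.Sur

open CategoryTheory MonoidalCategory CartesianMonoidalCategory Pool.Agent.Lib.MP_32dfd1_ag.Cyc
  Pool.Agent.Lib.MP_32dfd1_ag.Par

universe u v w

variable {V : Type u} [Category.{v} V] [CartesianMonoidalCategory V]
  {T : CycleData.{u, v, w} V} [T.Textbook]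

theorem generator_parityType (hC : ∀ (X : V) (x y : T.CH.R X), x * y = y * x)
    (hS : SumFibres T) {X : V} (h : Generator T X) : ParityType T X := by
  induction h with
  | surface S hd => exact (hS S hd).some.parityType hC
  | parity X i hi =>
    refine ⟨Unit, inferInstance, fun _ => X, fun _ => i, fun _ => 0, fun _ => T.CH.diag X,
      fun _ => T.CH.diag X, fun _ => hi, fun _ => T.gr_congr (T.diag_mem X) (by ring),
      fun _ => T.gr_congr (T.diag_mem X) (by ring), ?_⟩
    simp [RingData.comp_diag]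
  | tensor X Y _ _ ihX ihY => exact parityType_tensor hC ihX ihY

/-- homologically trivial classes are determined by the action on cohomology -/
theorem cl_eq_zero {X Y : V} (c : T.H.R (X ⊗ Y))
    (h : ∀ (j : ℤ), ∀ x ∈ T.H.gr X j, T.H.act c x = 0) : c = 0 := by
  refine T.faithful X Y c fun x => ?_
  have hx : x ∈ ⨆ j, T.H.gr X j := by rw [T.H_top X]; trivial
  induction hx using Submodule.iSup_induction' with
  | mem j x hx => exact h j x hx
  | zero => exact T.H.act_zero c
  | add x y _ _ hx hy => rw [T.H.act_add, hx, hy, add_zero]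

/-- the parity operator of a variety of parity type -/
theorem exists_sign (hP : ParityMinus T) {X : V} (hX : ParityType T X) :
    ∃ s ∈ T.CH.gr (X ⊗ X) (T.dim X),
      (∀ m z, T.HomTrivial X m z → T.CH.act s z = -z) ∧
      (∀ j : ℤ, Even j → ∀ x ∈ T.H.gr X j, T.H.act (T.cl _ s) x = x) ∧
      (∀ j : ℤ, Odd j → ∀ x ∈ T.H.gr X j, T.H.act (T.cl _ s) x = -x) := by
  obtain ⟨I, _, P, ι, n, a, b, hι, ha, hb, hab⟩ := hX
  have idH : ∀ x : T.H.R X, ∑ i, T.H.act (T.cl _ (b i)) (T.H.act (T.cl _ (a i)) x) = x := by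
    intro x
    have h := T.H.act_diag x
    rw [← T.cl_diag, ← hab, map_sum, RingData.sum_act] at h
    rw [← h]
    refine Finset.sum_congr rfl fun i _ => ?_
    rw [h, T.cl_comp, RingData.act_comp]
  have hH : ∀ x : T.H.R X, T.H.act (T.cl _ (∑ i, T.CH.comp (T.CH.comp (a i)
      (T.CH.gt (ι i))) (b i))) x =
      ∑ i, T.H.act (T.cl _ (b i)) (T.H.pull (ι i) (T.H.act (T.cl _ (a i)) x)) := by
    intro x
    rw [map_sum, RingData.sum_act]
    refine Finset.sum_congr rfl fun i _ => ?_
    rw [T.cl_comp, T.cl_comp, RingData.act_comp, RingData.act_comp, T.cl_gt, RingData.act_gt]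
  have hmem : ∀ (i : I) (j : ℤ) (x : T.H.R X), x ∈ T.H.gr X j →
      T.H.act (T.cl _ (a i)) x ∈ T.H.gr (P i) (j + 2 * n i) := by
    intro i j x hx
    exact T.grH_congr (T.actH_mem (T.cl_mem _ _ _ (ha i)) hx) (by ring)
  refine ⟨∑ i, T.CH.comp (T.CH.comp (a i) (T.CH.gt (ι i))) (b i), ?_, ?_, ?_, ?_⟩
  · refine Submodule.sum_mem _ fun i _ => ?_
    exact T.gr_congr (T.comp_mem (T.comp_mem (ha i) (T.gt_mem (ι i))) (hb i)) (by ring)
  · intro m z hz
    rw [RingData.sum_act]
    rw [← neg_eq_iff_eq_neg, ← Finset.sum_neg_distrib]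
    refine Eq.trans (Finset.sum_congr rfl fun i _ => ?_) (id_act hab z)
    rw [RingData.act_comp, RingData.act_comp, RingData.act_gt]
    have h1 : T.CH.pull (ι i) (T.CH.act (a i) z) = -T.CH.act (a i) z :=
      hP (P i) (ι i) (hι i) _ _ (T.homTrivial_act (ha i) hz)
    rw [h1, RingData.act_neg, neg_neg]
  · intro j hj x hx
    rw [hH]
    refine Eq.trans (Finset.sum_congr rfl fun i _ => ?_) (idH x)
    rw [(hι i).even _ ?_ _ (hmem i j x hx)]
    exact hj.add (even_two_mul _)
  · intro j hj x hx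
    rw [hH, ← neg_eq_iff_eq_neg, ← Finset.sum_neg_distrib]
    refine Eq.trans (Finset.sum_congr rfl fun i _ => ?_) (idH x)
    rw [(hι i).odd _ ?_ _ (hmem i j x hx), RingData.act_neg, neg_neg]
    exact hj.add_even (even_two_mul _)

/-- the one-step statement for varieties of parity type -/
theorem oneStep_parityType (hP : ParityMinus T) {X Y : V} (hX : ParityType T X)
    (hY : ParityType T Y) {r m : ℤ} {c : T.CH.R (X ⊗ Y)} (hc : c ∈ T.CH.gr (X ⊗ Y) r)
    (hodd : ∀ j : ℤ, Odd j → ∀ x ∈ T.H.gr X j, T.H.act (T.cl _ c) x = 0)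
    {z : T.CH.R X} (hz : T.HomTrivial X m z) : T.CH.act c z = 0 := by
  obtain ⟨s, hs, hs1, hs2, hs3⟩ := exists_sign hP hX
  have hd : T.HomTrivial (X ⊗ Y) r (c - T.CH.comp s c) := by
    refine ⟨Submodule.sub_mem _ hc (T.gr_congr (T.comp_mem hs hc) (by ring)), ?_⟩
    refine cl_eq_zero _ fun j x hx => ?_
    have e1 : T.H.act (T.cl _ (c - T.CH.comp s c)) x =
        T.H.act (T.cl _ c) x - T.H.act (T.cl _ c) (T.H.act (T.cl _ s) x) := by
      have h1 : T.H.act (T.cl _ (c - T.CH.comp s c)) x =
          T.H.act (T.cl _ c) x - T.H.act (T.cl _ (T.CH.comp s c)) x := by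
        unfold RingData.act
        rw [map_sub, mul_sub, map_sub]
      rw [h1, T.cl_comp, RingData.act_comp]
    rw [e1]
    rcases Int.even_or_odd j with hj | hj
    · rw [hs2 j hj x hx, sub_self]
    · rw [hs3 j hj x hx, RingData.act_neg, hodd j hj x hx]
      simp
  have h1 := correspondencesVanish hP X Y hX hY r m _ z hd hz
  have h2 : T.CH.act (c - T.CH.comp s c) z = T.CH.act c z - T.CH.act (T.CH.comp s c) z := by
    unfold RingData.act
    rw [mul_sub, map_sub]
  rw [h2, RingData.act_comp, hs1 m z hz, RingData.act_neg] at h1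
  exact two_smul_zero (by rw [sub_neg_eq_add] at h1; exact eq_neg_of_add_eq_zero_left h1)

theorem oneStep (hC : ∀ (X : V) (x y : T.CH.R X), x * y = y * x) (hS : SumFibres T)
    (hP : ParityMinus T) : OneStep T := by
  classical
  intro X Y hX hY r m c hc hodd z hz
  obtain ⟨I, _, P, n, a, b, hI, ha, hb, hab⟩ := hX
  obtain ⟨J, _, P', n', a', b', hJ, ha', hb', hab'⟩ := hY
  rw [← id_act hab' (T.CH.act c z), ← id_act hab z]
  refine Finset.sum_eq_zero fun j _ => ?_
  rw [RingData.act_sum, RingData.act_sum, RingData.act_sum]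
  refine Finset.sum_eq_zero fun i _ => ?_
  have h2 : T.CH.act (T.CH.comp (T.CH.comp (b i) c) (a' j)) (T.CH.act (a i) z) = 0 := by
    refine oneStep_parityType hP (generator_parityType hC hS (hI i))
      (generator_parityType hC hS (hJ j)) (T.comp_mem (T.comp_mem (hb i) hc) (ha' j)) ?_
      (T.homTrivial_act (ha i) hz)
    intro l hl x hx
    rw [T.cl_comp, T.cl_comp, RingData.act_comp, RingData.act_comp]
    have h3 : T.H.act (T.cl _ (b i)) x ∈ T.H.gr X (l - 2 * n i) :=
      T.grH_congr (T.actH_mem (T.cl_mem _ _ _ (hb i)) hx) (by ring)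
    rw [hodd _ (hl.sub_even (even_two_mul _)) _ h3, RingData.act_zero]
  rw [RingData.act_comp, RingData.act_comp] at h2
  rw [h2, RingData.act_zero]

theorem evenCase_of_oneStep (h : OneStep T) : EvenCase T := by
  intro X hX m z hz
  have hG : Generated T X := by
    refine ⟨Unit, inferInstance, fun _ => X, fun _ => 0, fun _ => T.CH.diag X,
      fun _ => T.CH.diag X, fun _ => Generator.parity X (𝟙 X) (SumFibre.parity_id hX),
      fun _ => T.gr_congr (T.diag_mem X) (by ring),
      fun _ => T.gr_congr (T.diag_mem X) (by ring), ?_⟩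
    simp [RingData.comp_diag]
  have h1 := h X X hG hG _ m (T.CH.diag X) (T.diag_mem X) (by
    intro j hj x hx
    rw [hX j hj, Submodule.mem_bot] at hx
    rw [hx, RingData.act_zero]) z hz
  rwa [RingData.act_diag] at h1

end Pool.Agent.Lib.MP_32dfd1_ag.Sur
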